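import Pool.Agent.U41.OD.Stm

/-! Project OD, package P (helper165): the local ring of a projective hypersurface at a point of the
chart `s`.  The proof is that of `Pool.Agent.TH214.RM.gdg`. -/

set_option autoImplicit false
set_option linter.unusedVariables false

open scoped Pointwise

namespace Pool.Agent.U41.OD

open Pool.Agent.H918R2.Quad Pool.Agent.H945R2.E Pool.Agent.W418 Pool.Agent.TH214.RM MvPolynomial

theorem P_ok : S_P := by
  intro R F ι _ _ _ _ _ _ _ 𝒪 G d s x hloc hR hRU hG0 hGd hreg hrel hs hz hind hlast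
  obtain ⟨j₀, hj₀⟩ := hind
  set t : ι → F := fun j => x j / x s with ht
  have hts : t s = 1 := div_self hs
  set E : MvPolynomial {j : ι // j ≠ s} R := deh s G with hE
  let I : Ideal (MvPolynomial {j : ι // j ≠ s} R) := Ideal.span {E}
  let eW : MvPolynomial {j : ι // j ≠ s} R →ₐ[R] F :=
    aeval (fun j : {j : ι // j ≠ s} => t j)
  have heC : ∀ r, eW (C r) = algebraMap R F r := fun r => aeval_C _ r
  have heX : ∀ j, eW (X j) = t j := fun j => aeval_X _ j
  have heW : ∀ w, eW w ∈ 𝒪 := by
    intro w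
    induction w using MvPolynomial.induction_on with
    | C r => rw [heC]; exact hR r
    | add p q hp hq => rw [map_add]; exact 𝒪.add_mem hp hq
    | mul_X p j hp => rw [map_mul, heX]; exact 𝒪.mul_mem hp (hz _)
  have hmap : ∀ j, eW (tau s j) = t j := fun j => aeval_tau' s t hts j
  have hEt : eW E = 0 := by
    rw [hE, aeval_deh s t hts G]
    have h1 : t = fun j => x j * (x s)⁻¹ := by
      funext j
      simp only [ht]
      rw [div_eq_mul_inv]
    rw [h1, aeval_scale x _ d G hGd, hrel, zero_mul]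
  have hI : ∀ w ∈ I, eW w = 0 := by
    intro w hw
    obtain ⟨c, rfl⟩ := Ideal.mem_span_singleton.1 hw
    rw [map_mul, hEt, zero_mul]
  have hadj : ∀ a ∈ Algebra.adjoin R (Set.range t), ∃ w, eW w = a := by
    intro a ha
    have h1 : Algebra.adjoin R (Set.range t) ≤ eW.range := by
      refine Algebra.adjoin_le ?_
      rintro _ ⟨j, rfl⟩
      exact ⟨tau s j, hmap j⟩
    exact h1 ha
  have hfrac : ∀ x ∈ 𝒪, ∃ a b : MvPolynomial {j : ι // j ≠ s} R,
      eW b ≠ 0 ∧ (eW b)⁻¹ ∈ 𝒪 ∧ x = eW a / eW b := by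
    intro y hy
    obtain ⟨a, ha, b, hb, hU, hab⟩ := hlast y hy
    obtain ⟨wa, rfl⟩ := hadj a ha
    obtain ⟨wb, rfl⟩ := hadj b hb
    exact ⟨wa, wb, hU.1, hU.2.2, hab⟩
  have hEne : E ≠ 0 := deh_ne_zero s G hG0 d hGd
  obtain ⟨A, _, _, pr, hpr, hprk, hpr0⟩ := exists_quot (R := R) I
  have haev : ∀ p : MvPolynomial {j : ι // j ≠ s} R,
      aeval (fun j : {j : ι // j ≠ s} => (X j : MvPolynomial {j : ι // j ≠ s} R)) p = p := by
    intro p
    rw [aeval_X_left_apply]
  refine regular_of_pres 𝒪 hloc pr hpr eW ?_ heW hfrac ?_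
    (fun j : {j : ι // j ≠ s} => X j) E hEne ?_ j₀ ?_ ?_
  · intro w hw
    exact hI w ((hpr0 w).1 hw)
  · intro q hq hqm
    have hEq : pr E = 0 := (hpr0 E).2 (Ideal.mem_span_singleton_self _)
    let Q : Ideal (MvPolynomial {j : ι // j ≠ s} R) := q.comap (pr : _ →+* A)
    have hQ : Q.IsPrime := Ideal.comap_isPrime _ _
    have hEQ : E ∈ Q := by
      change pr E ∈ q
      rw [hEq]
      exact q.zero_mem
    have hCQ : ∀ r : R, C r ∈ Q ↔ ¬ IsUnit r := by
      intro r
      change pr (C r) ∈ q ↔ _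
      rw [hqm, heC]
      refine not_congr ⟨hRU r, fun h => ?_⟩
      obtain ⟨u, rfl⟩ := h
      have h1 : algebraMap R F (u : R) * algebraMap R F ((u⁻¹ : Rˣ) : R) = 1 := by
        rw [← map_mul, Units.mul_inv, map_one]
      refine ⟨left_ne_zero_of_mul_eq_one h1, hR _, ?_⟩
      rw [inv_eq_of_mul_eq_one_right h1]
      exact hR _
    rcases hreg Q hQ hEQ hCQ with ⟨j, hj⟩ | h
    · exact regular_of_pderiv E (pr : _ →+* A) hpr hprk q j hj
    · have hid : (q.comap (pr : _ →+* A)).map (RingHom.id _) = Q := Ideal.map_id _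
      refine reg_crit_one (W := MvPolynomial {j : ι // j ≠ s} R) (pr : _ →+* A) hpr {E}
        (by rw [Finset.coe_singleton]; exact hprk) q (RingHom.id _)
        (fun z => ⟨z, rfl⟩) ?_ ∅ (by simp) ?_ E hEq ?_ ?_
      · intro z hz
        have h0 : z = 0 := by simpa using hz
        rw [h0]
        exact Ideal.zero_mem _
      · intro z hz
        have h0 : z = 0 := by simpa using hz
        refine ⟨1, ?_, ?_⟩
        · rw [map_one]
          exact (Ideal.ne_top_iff_one q).1 hq.ne_top
        · rw [h0, mul_zero, map_zero]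
          exact Ideal.zero_mem _
      · intro c hc
        rw [hid] at hc ⊢
        exact h c hc
      · simp
  · rw [haev, hpr0]
    exact Ideal.mem_span_singleton_self _
  · convert hj₀ using 2 with j
    exact heX _
  · intro w
    refine ⟨w, 1, by simp, ?_⟩
    rw [haev 1, one_mul, haev]

end Pool.Agent.U41.OD
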